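import Pool.Agent.Helper74.WB.St

/-! Project WB, module STP. -/

set_option autoImplicit false

namespace Pool.Agent.Helper69.WB

open Pool.Agent.Helper74 Pool.Agent.Helper74.WB

section

variable {W : Type}

/-- the top is not a letter `t` -/
theorem head_bad (rk : W → Bool) (σ : List (Lb W × Bool)) (h : C1i rk σ ∨ C2 σ)
    (g : W × List W) : ∀ y ∈ σ.head?, y ≠ iv ((Lb.t g, false) : Lb W × Bool) := by
  intro y hy
  rcases h with ⟨i, τ, rfl, _⟩ | ⟨ρ, h, τ, rfl, hρ⟩
  · simp only [List.head?_cons, Option.mem_def, Option.some.injEq] at hy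
    subst hy
    simp [iv]
  · cases ρ with
    | nil =>
      simp only [List.nil_append, List.head?_cons, Option.mem_def, Option.some.injEq] at hy
      subst hy
      simp [iv]
    | cons a ρ =>
      simp only [List.cons_append, List.head?_cons, Option.mem_def, Option.some.injEq] at hy
      subst hy
      have hp : Pb a := hρ a (by simp)
      rcases hp with ⟨i, hi⟩ | ⟨X, hX⟩
      · intro e
        rw [e] at hi
        simp [iv] at hi
      · intro e
        rw [e] at hX
        simp [iv] at hX

theorem rd_gt (g : W × List W) (σ : List (Lb W × Bool)) :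
    rd (gt g) σ = ap (.t g, false) (rd (gG g) σ) := by
  unfold gt
  rw [rd_append]
  rfl

/-- alternatives four to six -/
theorem alt456 (rk : W → Bool) (g : W × List W) (m : List (W × List W)) (hr : Rc rk g)
    (hg : g ∉ m) (τ : List (Lb W × Bool))
    (h : (∃ (x : Lb W × Bool) (τ' : List (Lb W × Bool)), τ = x :: τ' ∧
      (x = (.y g, false) ∨ x.1 = .t g)) ∨
    (∃ (ρ τ' : List (Lb W × Bool)), τ = ρ ++ (.y g, true) :: τ' ∧ ∀ x ∈ ρ, Pb x) ∨
    ∃ τ', τ = (.b true, true) :: (cfg g.2 ++ (.z g.1, false) :: τ')) : BI rk m τ := by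
  rcases h with ⟨x, τ', h1, h2⟩ | ⟨ρ, τ', h1, h2⟩ | ⟨τ', h1⟩
  · exact Or.inr (Or.inr ⟨g, x, τ', h1, hg, h2⟩)
  · exact Or.inr (Or.inl ⟨ρ, g, τ', h1, h2⟩)
  · exact Or.inl ⟨true, _, h1, Or.inr ⟨g.2, g.1, τ', rfl, hr⟩⟩

/-- the third alternative -/
theorem alt3 (rk : W → Bool) (g : W × List W) (m : List (W × List W)) (hg : g ∉ m)
    (σ : List (Lb W × Bool))
    (h : ∀ y ∈ (rd (gG g) σ).head?, y ≠ iv ((Lb.t g, false) : Lb W × Bool)) :
    BI rk m (rd (gt g) σ) := by
  rw [rd_gt, ap_push' _ _ h]
  exact Or.inr (Or.inr ⟨g, (.t g, false), _, rfl, hg, Or.inr rfl⟩)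

theorem red_pos (σ : List (Lb W × Bool)) (h : ∀ x ∈ σ, x.2 = true) : Red σ := by
  induction σ with
  | nil => trivial
  | cons a σ ih =>
    refine red_cons a σ (ih fun x hx => h x (by simp [hx])) ?_
    intro y hy e
    have h1 : y ∈ σ := List.mem_of_mem_head? hy
    have h2 : y.2 = true := h y (by simp [h1])
    have h3 : a.2 = true := h a (by simp)
    rw [e] at h2
    simp [iv, h3] at h2

theorem fr_of (g : W × List W) (m : List (W × List W)) (rk : W → Bool)
    (σ : List (Lb W × Bool)) (h : BI rk (g :: m) σ) : Fr g σ := by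
  intro x hx
  rcases h with ⟨i, τ, rfl, _⟩ | ⟨ρ, h, τ, rfl, hρ⟩ | ⟨g', x', τ, rfl, hg', hx'⟩
  · simp only [List.head?_cons, Option.mem_def, Option.some.injEq] at hx
    subst hx
    exact ⟨by simp, by simp⟩
  · cases ρ with
    | nil =>
      simp only [List.nil_append, List.head?_cons, Option.mem_def, Option.some.injEq] at hx
      subst hx
      exact ⟨by simp, by simp⟩
    | cons a ρ =>
      simp only [List.cons_append, List.head?_cons, Option.mem_def, Option.some.injEq] at hx
      subst hx
      have hp : Pb a := hρ a (by simp)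
      rcases hp with ⟨i, hi⟩ | ⟨X, hX⟩
      · exact ⟨fun e => by rw [e] at hi; simp at hi, fun e => by rw [e] at hi; simp at hi⟩
      · exact ⟨fun e => by rw [e] at hX; simp at hX, fun e => by rw [e] at hX; simp at hX⟩
  · simp only [List.head?_cons, Option.mem_def, Option.some.injEq] at hx
    subst hx
    have hne : g ≠ g' := fun e => hg' (by rw [e]; simp)
    rcases hx' with e | e
    · subst e
      exact ⟨by simp [hne.symm], by simp⟩
    · refine ⟨fun e' => ?_, fun e' => ?_⟩
      · rw [e'] at e; simp at e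
      · rw [e'] at e
        simp only [Lb.t.injEq] at e
        exact hne e

end

theorem hSTP (hGAD : StGAD) (hRDG : StRDG) : StSTP := by
  intro W rk g m hr hg
  obtain ⟨r1, r2, r3, r4⟩ := hRDG W rk g hr
  refine ⟨?_, ?_⟩
  · intro i s τ hτ
    have hred : Red ((.b i, true) :: cfg s) := by
      apply red_pos
      intro x hx
      simp only [List.mem_cons, cfg, List.mem_map] at hx
      rcases hx with rfl | ⟨X, _, rfl⟩ <;> rfl
    have hfr : Fr g ((.b i, true) :: cfg s) := by
      intro x hx
      simp only [List.head?_cons, Option.mem_def, Option.some.injEq] at hx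
      subst hx
      exact ⟨by simp, by simp⟩
    -- the second alternative
    have h2 : (i = false ∧ ∃ s', s = g.1 :: s' ∧
        rd (gG g) ((.b i, true) :: cfg s) = (.b true, true) :: cfg (g.2 ++ s')) ∨
        C1i rk (rd (gG g) ((.b i, true) :: cfg s)) := by
      cases i with
      | false =>
        rcases r1 s with ⟨s', e1, e2⟩ | h
        · exact Or.inl ⟨rfl, s', e1, e2⟩
        · exact Or.inr h
      | true => exact Or.inr (r3 (.b true, true) (cfg s) (by simp))
    rcases hGAD W rk g _ τ hr hred hfr hτ with h | h | h | h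
    · exact Or.inl h
    · rcases h2 with ⟨hi, s', e1, e2⟩ | h2
      · exact Or.inr (Or.inl ⟨hi, s', e1, by rw [h, e2]⟩)
      · exact Or.inr (Or.inr (Or.inl (by rw [h]; exact h2)))
    · refine Or.inr (Or.inr ?_)
      rw [h]
      apply alt3 rk g m hg
      rcases h2 with ⟨hi, s', e1, e2⟩ | h2
      · rw [e2]
        intro y hy
        simp only [List.head?_cons, Option.mem_def, Option.some.injEq] at hy
        subst hy
        simp [iv]
      · exact head_bad rk _ (Or.inl h2) g
    · exact Or.inr (Or.inr (alt456 rk g m hr hg τ h))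
  · intro σ τ hσ hb hτ
    have hfr := fr_of g m rk σ hb
    have h2 : C1i rk (rd (gG g) σ) ∨ C2 (rd (gG g) σ) := by
      rcases hb with ⟨i, τ', rfl, hc⟩ | hc | ⟨g', x', τ', rfl, hg', hx'⟩
      · cases i with
        | false => exact Or.inl (r2 _ hc)
        | true => exact Or.inl (r3 _ _ (by simp))
      · exact Or.inr (r4 _ hc)
      · refine Or.inl (r3 _ _ ?_)
        rcases hx' with e | e
        · rw [e]; simp
        · intro e'; rw [e'] at e; simp at e
    rcases hGAD W rk g _ τ hr hσ hfr hτ with h | h | h | h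
    · rw [h]
      rcases hb with hc | hc | ⟨g', x', τ', e, hg', hx'⟩
      · exact Or.inl hc
      · exact Or.inr (Or.inl hc)
      · exact Or.inr (Or.inr ⟨g', x', τ', e, fun h' => hg' (by simp [h']), hx'⟩)
    · rw [h]
      rcases h2 with h2 | h2
      · exact Or.inl h2
      · exact Or.inr (Or.inl h2)
    · rw [h]
      exact alt3 rk g m hg _ (head_bad rk _ h2 g)
    · exact alt456 rk g m hr hg τ h

end Pool.Agent.Helper69.WB
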